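import Pool.Agent.Lib.MP_7abaca_co.FinalC

/-!
The union of three independent uniformly random spanning trees of the complete graph `K_n` is
Hamiltonian with probability tending to one (conjectured by Frieze, Karonski and Thoma, who proved
it for five trees).
-/

namespace Pool.Agent.Results.MP_7abaca_co.ThreeTrees

open Filter

/-- The proportion of triples `(T 0, T 1, T 2)` of trees on the vertex set `Fin n` (that is, of
spanning trees of `K_n`) whose union is Hamiltonian tends to one as `n` tends to infinity. -/
theorem result :
    Tendsto (fun n : ℕ =>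
      (({T : Fin 3 → SimpleGraph (Fin n) |
        (∀ i, (T i).IsTree) ∧ (T 0 ⊔ T 1 ⊔ T 2).IsHamiltonian}.ncard : ℕ) : ℝ) /
      (({T : SimpleGraph (Fin n) | T.IsTree}.ncard : ℕ) : ℝ) ^ 3) atTop (nhds 1) := by
  classical
  have h := Pool.Agent.ST3.three_trees_hamiltonian'
  refine h.congr (fun n => ?_)
  congr 1
  · congr 1
    rw [← Set.ncard_coe_finset]
    congr 1
    ext T
    simp
  · congr 2
    rw [← Set.ncard_coe_finset]
    congr 1
    ext T
    simp

end Pool.Agent.Results.MP_7abaca_co.ThreeTrees
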